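import Mathlib

/-! # MP_3242d6_co, Q1 (affirmative): vanishing of exact-stabilizer counts of `AGL(1, F_q)`, `q` even,
forces `k` to be a power of 2.

Sketch. Put `L = {a : aH ⊆ H}` (a subfield), let `V` be an `L`-complement of `H` in `F`, `j = k/|H|`; it is
enough to find a `μ_d`-invariant `C ⊆ V` with `j` elements such that `a C + v = C` forces `a ∈ μ_d`,
`v = 0` (`core`). If the power sum `p_d(C) = ∑ x ^ d` is not zero, `C` is not invariant under any `v ≠ 0`,
unless `d + 1 = 2 ^ s`, `j/(d+1)` is odd and `v ^ d = p_d(C)` (`translation`). In the latter case one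
exchange of orbits makes `C` good. The case `d = 1`, `j` odd uses `p_1 = 0`, `p_3 ≠ 0` and exchanges
`{x, y} → {x + t, y + t}`. -/

namespace Pool.Agent.Results.MP_3242d6_co.PowerOfTwo

open Finset

set_option linter.unusedSectionVars false

universe u

section Core

variable {F : Type u} [Field F] [Fintype F] [DecidableEq F] [CharP F 2]

/-- the `d`-th roots of unity -/
def mu (F : Type u) [Field F] [Fintype F] [DecidableEq F] (d : ℕ) : Finset F :=
  univ.filter (fun ζ => ζ ^ d = 1)

omit [CharP F 2] in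
lemma dpos {d : ℕ} (hd : d ∣ Fintype.card F - 1) : 0 < d := by
  have h1 : 1 < Fintype.card F := Fintype.one_lt_card
  exact Nat.pos_of_dvd_of_pos hd (by omega)

omit [CharP F 2] in
lemma card_mu {d : ℕ} (hd : d ∣ Fintype.card F - 1) : (mu F d).card = d := by
  have hd0 := dpos hd
  obtain ⟨g, hg⟩ := IsCyclic.exists_ofOrder_eq_natCard (α := Fˣ)
  have hcard : Nat.card Fˣ = Fintype.card F - 1 := by
    rw [Nat.card_eq_fintype_card, Fintype.card_units]
  obtain ⟨c, hc⟩ := hd
  have h1 : 1 < Fintype.card F := Fintype.one_lt_card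
  have hc0 : c ≠ 0 := by rintro rfl; omega
  have ho : orderOf (g ^ c) = d := by
    rw [orderOf_pow_of_dvd hc0 (by rw [hg, hcard, hc]; exact Dvd.intro_left d rfl), hg, hcard, hc]
    exact Nat.mul_div_cancel _ (Nat.pos_of_ne_zero hc0)
  have hp : IsPrimitiveRoot ((g ^ c : Fˣ) : F) d := by
    rw [IsPrimitiveRoot.coe_units_iff]
    have := IsPrimitiveRoot.orderOf (g ^ c)
    rwa [ho] at this
  have : mu F d = Polynomial.nthRootsFinset d (1 : F) := by
    ext x
    simp [mu, Polynomial.mem_nthRootsFinset hd0]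
  rw [this, hp.card_nthRootsFinset]

lemma add_self (x : F) : x + x = 0 := CharTwo.add_self_eq_zero x

lemma odd_d {d : ℕ} (hd : d ∣ Fintype.card F - 1) : Odd d := by
  obtain ⟨n, -, hn⟩ := FiniteField.card F 2
  have h1 : Odd (Fintype.card F - 1) := by
    rw [hn]
    have : Even (2 ^ (n : ℕ)) := by
      rw [Nat.even_pow]; exact ⟨even_two, n.pos.ne'⟩
    exact Nat.Even.sub_odd (Nat.one_le_two_pow) this odd_one
  exact Odd.of_dvd_nat h1 hd

lemma cast_odd {m : ℕ} (hm : Odd m) : (m : F) = 1 := by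
  obtain ⟨k, rfl⟩ := hm
  have : (2 : F) = 0 := by
    have := CharP.cast_eq_zero F 2
    simpa using this
  push_cast
  rw [this]; ring

lemma cast_even {m : ℕ} (hm : Even m) : (m : F) = 0 := by
  obtain ⟨k, rfl⟩ := hm
  have : (2 : F) = 0 := by
    have := CharP.cast_eq_zero F 2
    simpa using this
  push_cast
  rw [← two_mul, this]; ring

/-- power of two of a finite subfield -/
lemma translation (C : Finset F) {d : ℕ} (hd : d ∣ Fintype.card F - 1)
    (hC : ∀ ζ : F, ζ ^ d = 1 → ∀ x ∈ C, ζ * x ∈ C) (v : F) (hv : v ≠ 0)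
    (hCv : ∀ x ∈ C, x + v ∈ C) (hp : ∑ x ∈ C, x ^ d ≠ 0) :
    (∀ a b : F, (a = 0 ∨ a ^ d = 1) → (b = 0 ∨ b ^ d = 1) → (a + b = 0 ∨ (a + b) ^ d = 1)) ∧
    (∀ a : F, (a = 0 ∨ a ^ d = 1) → ∀ x ∈ C, x + a * v ∈ C) ∧
    (∃ m, C.card = (d + 1) * m ∧ Odd m) ∧ (∃ s, d + 1 = 2 ^ s) ∧ ∑ x ∈ C, x ^ d = v ^ d := by
  classical
  have hd0 := dpos hd
  let K : Subfield F :=
    { carrier := {a | ∀ t : F, (∀ x ∈ C, x + t ∈ C) → ∀ x ∈ C, x + a * t ∈ C}
      mul_mem' := by
        intro a b ha hb t ht x hx
        have := ha (b * t) (hb t ht) x hx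
        rwa [← mul_assoc] at this
      one_mem' := by
        intro t ht x hx
        simpa using ht x hx
      add_mem' := by
        intro a b ha hb t ht x hx
        have := hb t ht _ (ha t ht x hx)
        rwa [add_assoc, ← add_mul] at this
      zero_mem' := by
        intro t ht x hx
        simpa using hx
      neg_mem' := by
        intro a ha t ht x hx
        rw [CharTwo.neg_eq]
        exact ha t ht x hx
      inv_mem' := by
        intro a ha
        have hpow : ∀ n : ℕ, ∀ t : F, (∀ x ∈ C, x + t ∈ C) → ∀ x ∈ C, x + a ^ n * t ∈ C := by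
          intro n
          induction n with
          | zero => intro t ht x hx; simpa using ht x hx
          | succ n ih =>
            intro t ht x hx
            have := ha (a ^ n * t) (ih t ht) x hx
            rwa [← mul_assoc, ← pow_succ'] at this
        rcases eq_or_ne a 0 with h0 | h0
        · rw [h0, inv_zero]
          intro t ht x hx
          simpa using hx
        · have h1 : 1 < Fintype.card F := Fintype.one_lt_card
          have h2 : a⁻¹ = a ^ (Fintype.card F - 2) := by
            have h3 := FiniteField.pow_card_sub_one_eq_one a h0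
            apply inv_eq_of_mul_eq_one_right
            rw [← pow_succ']
            have h4 : Fintype.card F - 2 + 1 = Fintype.card F - 1 := by omega
            rw [h4, h3]
          rw [h2]
          exact hpow _ }
  have hKmem : ∀ a : F, a ∈ K ↔ ∀ t : F, (∀ x ∈ C, x + t ∈ C) → ∀ x ∈ C, x + a * t ∈ C :=
    fun a => Iff.rfl
  have hmuK : ∀ a : F, a ^ d = 1 → a ∈ K := by
    intro a ha
    rw [hKmem]
    intro t ht x hx
    have ha0 : a ≠ 0 := by
      rintro rfl
      rw [zero_pow hd0.ne'] at ha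
      exact zero_ne_one ha
    have hai : (a⁻¹) ^ d = 1 := by rw [inv_pow, ha, inv_one]
    have h1 := ht _ (hC _ hai x hx)
    have h2 := hC a ha _ h1
    rw [mul_add, ← mul_assoc, mul_inv_cancel₀ ha0, one_mul] at h2
    exact h2
  let _ : Fintype K := Fintype.ofFinite K
  set w := Fintype.card K with hw
  have hw1 : 1 < w := Fintype.one_lt_card
  -- `d ≤ w - 1`
  have hKcard : (univ.filter (fun a : F => a ∈ K)).card = w := by
    rw [hw, ← Fintype.card_subtype]
  have hsub : insert 0 (mu F d) ⊆ univ.filter (fun a : F => a ∈ K) := by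
    intro a ha
    rw [mem_insert] at ha
    rw [mem_filter]
    refine ⟨mem_univ _, ?_⟩
    rcases ha with rfl | ha
    · exact K.zero_mem
    · exact hmuK a (mem_filter.1 ha).2
  have h0mu : (0 : F) ∉ mu F d := by
    simp [mu, hd0.ne']
  have hle : d + 1 ≤ w := by
    have := card_le_card hsub
    rw [card_insert_of_notMem h0mu, card_mu hd, hKcard] at this
    exact this
  -- a linear functional
  have hvinj : LinearMap.ker (LinearMap.toSpanSingleton K F v) = ⊥ := by
    rw [LinearMap.ker_eq_bot']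
    intro a ha
    rw [LinearMap.toSpanSingleton_apply] at ha
    rcases smul_eq_zero.1 ha with h | h
    · exact h
    · exact absurd h hv
  obtain ⟨f, hf⟩ := LinearMap.exists_leftInverse_of_injective _ hvinj
  have hfv : ∀ a : K, f ((a : F) * v) = a := by
    intro a
    have := LinearMap.congr_fun hf a
    simpa [LinearMap.toSpanSingleton_apply, Subfield.smul_def] using this
  have hKv : ∀ a ∈ K, ∀ x ∈ C, x + a * v ∈ C := fun a ha => ha v hCv
  set R := C.filter (fun x => f x = 0) with hR
  have key : ∀ G : F → F, ∑ x ∈ C, G x = ∑ r ∈ R, ∑ a : K, G (r + (a : F) * v) := by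
    intro G
    rw [← Finset.sum_product']
    symm
    refine Finset.sum_bij' (fun p _ => p.1 + (p.2 : F) * v) (fun x _ => (x - (f x : F) * v, f x))
      ?_ ?_ ?_ ?_ ?_
    · rintro ⟨r, a⟩ h
      simp only [mem_product, hR, mem_filter, mem_univ, and_true] at h
      exact hKv a a.2 r h.1
    · intro x hx
      simp only [mem_product, hR, mem_filter, mem_univ, and_true]
      constructor
      · rw [CharTwo.sub_eq_add]
        exact hKv _ (f x).2 x hx
      · rw [map_sub, hfv, sub_self]
    · rintro ⟨r, a⟩ h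
      simp only [mem_product, hR, mem_filter, mem_univ, and_true] at h
      have : f (r + (a : F) * v) = a := by rw [map_add, hfv, h.2, zero_add]
      simp [this]
    · intro x hx
      simp
    · rintro ⟨r, a⟩ h
      rfl
  have hcardC : C.card = w * R.card := by
    have hb : (R ×ˢ (univ : Finset K)).card = C.card := by
      refine Finset.card_bij' (fun p _ => p.1 + (p.2 : F) * v) (fun x _ => (x - (f x : F) * v, f x))
        ?_ ?_ ?_ ?_
      · rintro ⟨r, a⟩ h
        simp only [mem_product, hR, mem_filter, mem_univ, and_true] at h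
        exact hKv a a.2 r h.1
      · intro x hx
        simp only [mem_product, hR, mem_filter, mem_univ, and_true]
        constructor
        · rw [CharTwo.sub_eq_add]
          exact hKv _ (f x).2 x hx
        · rw [map_sub, hfv, sub_self]
      · rintro ⟨r, a⟩ h
        simp only [mem_product, hR, mem_filter, mem_univ, and_true] at h
        have : f (r + (a : F) * v) = a := by rw [map_add, hfv, h.2, zero_add]
        simp [this]
      · intro x hx
        simp
    rw [← hb, card_product, card_univ, mul_comm]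
  -- inner sum
  have hinner : ∀ r : F, ∑ a : K, (r + (a : F) * v) ^ d =
      ∑ k ∈ range (d + 1), (∑ a : K, (a : F) ^ k) * (v ^ k * r ^ (d - k) * (d.choose k : F)) := by
    intro r
    have : ∀ a : K, (r + (a : F) * v) ^ d =
        ∑ k ∈ range (d + 1), (a : F) ^ k * (v ^ k * r ^ (d - k) * (d.choose k : F)) := by
      intro a
      rw [add_comm, add_pow]
      apply sum_congr rfl
      intro k _
      rw [mul_pow]; ring
    simp_rw [this]
    rw [sum_comm]
    apply sum_congr rfl
    intro k _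
    rw [sum_mul]
  have hsumK : ∀ k < w - 1, ∑ a : K, (a : F) ^ k = 0 := by
    intro k hk
    have h := FiniteField.sum_pow_lt_card_sub_one K k hk
    have h2 := congrArg (fun z : K => (z : F)) h
    simp only [AddSubmonoidClass.coe_finsetSum, SubmonoidClass.coe_pow, ZeroMemClass.coe_zero] at h2
    exact h2
  have hdw : d = w - 1 := by
    by_contra hne
    have hlt : d < w - 1 := by omega
    apply hp
    rw [key]
    apply sum_eq_zero
    intro r _
    rw [hinner]
    apply sum_eq_zero
    intro k hk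
    rw [hsumK k (by have := mem_range.1 hk; omega), zero_mul]
  have hKeq : insert 0 (mu F d) = univ.filter (fun a : F => a ∈ K) := by
    apply eq_of_subset_of_card_le hsub
    rw [card_insert_of_notMem h0mu, card_mu hd, hKcard]
    omega
  have hKiff : ∀ a : F, a ∈ K ↔ (a = 0 ∨ a ^ d = 1) := by
    intro a
    have : a ∈ insert 0 (mu F d) ↔ a ∈ univ.filter (fun a : F => a ∈ K) := by rw [hKeq]
    simp only [mem_insert, mu, mem_filter, mem_univ, true_and] at this
    exact this.symm
  have hsumd : ∑ a : K, (a : F) ^ d = 1 := by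
    have h1 : ∀ a : K, (a : F) ^ d = if a = 0 then 0 else 1 := by
      intro a
      split_ifs with h
      · rw [h]; simp [hd0.ne']
      · rcases (hKiff a).1 a.2 with h2 | h2
        · exact absurd (Subtype.ext h2) h
        · exact h2
    simp_rw [h1]
    rw [sum_ite, sum_const_zero, zero_add, sum_const, nsmul_one]
    apply cast_odd
    have : (univ.filter (fun a : K => ¬ a = 0)).card = d := by
      rw [filter_not, filter_eq' , if_pos (mem_univ _), card_sdiff_of_subset (by simp), card_univ, card_singleton]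
      omega
    rw [this]
    exact odd_d hd
  have hval : ∑ x ∈ C, x ^ d = (R.card : F) * v ^ d := by
    rw [key]
    have : ∀ r ∈ R, ∑ a : K, (r + (a : F) * v) ^ d = v ^ d := by
      intro r _
      rw [hinner, sum_range_succ, sum_eq_zero, zero_add, hsumd]
      · simp
      · intro k hk
        rw [hsumK k (by have := mem_range.1 hk; omega), zero_mul]
    rw [sum_congr rfl this, sum_const, nsmul_eq_mul]
  have hRodd : Odd R.card := by
    rw [← Nat.not_even_iff_odd]
    intro he
    apply hp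
    rw [hval, cast_even he, zero_mul]
  refine ⟨?_, ?_, ⟨R.card, ?_, hRodd⟩, ?_, ?_⟩
  · intro a b ha hb
    rw [← hKiff] at ha hb ⊢
    exact K.add_mem ha hb
  · intro a ha
    exact hKv a ((hKiff a).2 ha)
  · rw [hcardC]; congr 1; omega
  · have : CharP K 2 := by
      exact (K.subtype.charP_iff Subtype.val_injective 2).mpr inferInstance
    obtain ⟨n, -, hn⟩ := FiniteField.card K 2
    exact ⟨n, by rw [← hn]; omega⟩
  · rw [hval, cast_odd hRodd, one_mul]

lemma image_self (C : Finset F) (g : F → F) (hg : Function.Injective g) (h : ∀ x ∈ C, g x ∈ C) :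
    C.image g = C := by
  apply eq_of_subset_of_card_le
  · intro y hy
    obtain ⟨x, hx, rfl⟩ := mem_image.1 hy
    exact h x hx
  · rw [card_image_of_injective _ hg]

lemma sum_self (C : Finset F) (g : F → F) (hg : Function.Injective g) (h : ∀ x ∈ C, g x ∈ C)
    (f : F → F) : ∑ x ∈ C, f (g x) = ∑ x ∈ C, f x := by
  conv_rhs => rw [← image_self C g hg h]
  rw [sum_image (fun a _ b _ hab => hg hab)]

/-- the orbit of `x` -/
def orb (d : ℕ) (x : F) : Finset F := (mu F d).image (fun ζ => ζ * x)

lemma mem_orb {d : ℕ} (hd : d ∣ Fintype.card F - 1) {x : F} (hx : x ≠ 0) (z : F) :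
    z ∈ orb d x ↔ z ^ d = x ^ d := by
  have hd0 := dpos hd
  constructor
  · intro h
    obtain ⟨ζ, hζ, rfl⟩ := mem_image.1 h
    rw [mul_pow, (mem_filter.1 hζ).2, one_mul]
  · intro h
    apply mem_image.2
    refine ⟨z * x⁻¹, mem_filter.2 ⟨mem_univ _, ?_⟩, ?_⟩
    · rw [mul_pow, inv_pow, h, mul_inv_cancel₀ (pow_ne_zero _ hx)]
    · rw [mul_assoc, inv_mul_cancel₀ hx, mul_one]

lemma card_orb {d : ℕ} (hd : d ∣ Fintype.card F - 1) {x : F} (hx : x ≠ 0) :
    (orb d x).card = d := by
  unfold orb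
  rw [card_image_of_injective _ (fun a b h => mul_right_cancel₀ hx h), card_mu hd]

lemma sum_orb {d : ℕ} (hd : d ∣ Fintype.card F - 1) {x : F} (hx : x ≠ 0) :
    ∑ z ∈ orb d x, z ^ d = x ^ d := by
  rw [sum_congr rfl (fun z hz => (mem_orb hd hx z).1 hz), sum_const, card_orb hd hx, nsmul_eq_mul,
    cast_odd (odd_d hd), one_mul]

lemma inv_of_pow_eq {d : ℕ} {C : Finset F}
    (hC : ∀ ζ : F, ζ ^ d = 1 → ∀ x ∈ C, ζ * x ∈ C) {x : F} (hx0 : x ≠ 0) (hx : x ∈ C) {z : F}
    (hz : z ^ d = x ^ d) : z ∈ C := by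
  have := hC (z * x⁻¹) (by rw [mul_pow, inv_pow, hz, mul_inv_cancel₀ (pow_ne_zero _ hx0)]) x hx
  rwa [mul_assoc, inv_mul_cancel₀ hx0, mul_one] at this

lemma swap (V C : Finset F) {d : ℕ} (hd : d ∣ Fintype.card F - 1)
    (hV : ∀ ζ : F, ζ ^ d = 1 → ∀ x ∈ V, ζ * x ∈ V)
    (hC : ∀ ζ : F, ζ ^ d = 1 → ∀ x ∈ C, ζ * x ∈ C) (hCV : C ⊆ V) {x y : F} (hx : x ∈ C)
    (hx0 : x ≠ 0) (hy : y ∈ V) (hyC : y ∉ C) (hy0 : y ≠ 0) :
    ∃ C' : Finset F, C' ⊆ V ∧ C'.card = C.card ∧ (∀ ζ : F, ζ ^ d = 1 → ∀ x ∈ C', ζ * x ∈ C') ∧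
      ∑ z ∈ C', z ^ d = ∑ z ∈ C, z ^ d + x ^ d + y ^ d ∧
      ∀ z, z ∈ C' ↔ (z ∈ C ∧ z ^ d ≠ x ^ d) ∨ z ^ d = y ^ d := by
  have hsub : orb d x ⊆ C := by
    intro z hz
    exact inv_of_pow_eq hC hx0 hx ((mem_orb hd hx0 z).1 hz)
  have hsubV : orb d y ⊆ V := by
    intro z hz
    exact inv_of_pow_eq hV hy0 hy ((mem_orb hd hy0 z).1 hz)
  have hdisj : Disjoint (C \ orb d x) (orb d y) := by
    rw [disjoint_left]
    intro z hz hz'
    have hzC := (mem_sdiff.1 hz).1
    have h1 := (mem_orb hd hy0 z).1 hz'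
    have hz0 : z ≠ 0 := by
      rintro rfl
      rw [zero_pow (dpos hd).ne'] at h1
      exact pow_ne_zero _ hy0 h1.symm
    exact hyC (inv_of_pow_eq hC hz0 hzC h1.symm)
  have hmem : ∀ z, z ∈ (C \ orb d x) ∪ orb d y ↔ (z ∈ C ∧ z ^ d ≠ x ^ d) ∨ z ^ d = y ^ d := by
    intro z
    rw [mem_union, mem_sdiff, mem_orb hd hx0, mem_orb hd hy0]
  refine ⟨(C \ orb d x) ∪ orb d y, ?_, ?_, ?_, ?_, hmem⟩
  · apply union_subset
    · exact sdiff_subset.trans hCV
    · exact hsubV
  · rw [card_union_of_disjoint hdisj, card_sdiff_of_subset hsub, card_orb hd hx0, card_orb hd hy0]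
    have := card_le_card hsub
    rw [card_orb hd hx0] at this
    omega
  · intro ζ hζ z hz
    rw [hmem] at hz ⊢
    rw [mul_pow, hζ, one_mul]
    rcases hz with hz | hz
    · exact Or.inl ⟨hC ζ hζ z hz.1, hz.2⟩
    · exact Or.inr hz
  · rw [sum_union hdisj, sum_orb hd hy0]
    have : ∑ z ∈ C \ orb d x, z ^ d + ∑ z ∈ orb d x, z ^ d = ∑ z ∈ C, z ^ d :=
      sum_sdiff hsub
    rw [sum_orb hd hx0] at this
    rw [← this]
    rw [add_assoc (∑ z ∈ C \ orb d x, z ^ d), add_self, add_zero]

lemma exists_inv (V : Finset F) {d : ℕ} (hd : d ∣ Fintype.card F - 1)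
    (hV : ∀ ζ : F, ζ ^ d = 1 → ∀ x ∈ V, ζ * x ∈ V) (i : ℕ) (hi : d * i < V.card) :
    ∃ C : Finset F, C ⊆ V ∧ (0 : F) ∉ C ∧ C.card = d * i ∧
      (∀ ζ : F, ζ ^ d = 1 → ∀ x ∈ C, ζ * x ∈ C) := by
  induction i with
  | zero => exact ⟨∅, by simp, by simp, by simp, by simp⟩
  | succ i ih =>
    have hd0 := dpos hd
    have h1 : d * i + d < V.card := by rw [← Nat.mul_succ]; exact hi
    obtain ⟨C, hCV, h0, hcard, hC⟩ := ih (by omega)
    obtain ⟨y, hy, hy'⟩ : ∃ y ∈ V, y ∉ insert 0 C := by
      by_contra hcon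
      push Not at hcon
      have := card_le_card (show V ⊆ insert 0 C from hcon)
      rw [card_insert_of_notMem h0, hcard] at this
      omega
    rw [mem_insert, not_or] at hy'
    obtain ⟨hy0, hyC⟩ := hy'
    have hdisj : Disjoint C (orb d y) := by
      rw [disjoint_left]
      intro z hz hz'
      have hz0 : z ≠ 0 := by rintro rfl; exact h0 hz
      exact hyC (inv_of_pow_eq hC hz0 hz ((mem_orb hd hy0 z).1 hz').symm)
    refine ⟨C ∪ orb d y, ?_, ?_, ?_, ?_⟩
    · apply union_subset hCV
      intro z hz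
      exact inv_of_pow_eq hV hy0 hy ((mem_orb hd hy0 z).1 hz)
    · rw [mem_union, not_or]
      refine ⟨h0, ?_⟩
      rw [mem_orb hd hy0, zero_pow hd0.ne']
      exact (pow_ne_zero _ hy0).symm
    · rw [card_union_of_disjoint hdisj, card_orb hd hy0, hcard]; ring
    · intro ζ hζ z hz
      rw [mem_union] at hz ⊢
      rcases hz with hz | hz
      · exact Or.inl (hC ζ hζ z hz)
      · right
        rw [mem_orb hd hy0] at hz ⊢
        rw [mul_pow, hζ, one_mul, hz]

lemma exists_start (V : Finset F) (h0V : (0 : F) ∈ V) {d : ℕ} (hd : d ∣ Fintype.card F - 1)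
    (hV : ∀ ζ : F, ζ ^ d = 1 → ∀ x ∈ V, ζ * x ∈ V) (i e : ℕ) (hi : 1 ≤ i) (he : e ≤ 1)
    (hi2 : d * i + 2 < V.card) :
    ∃ C : Finset F, C ⊆ V ∧ C.card = d * i + e ∧
      (∀ ζ : F, ζ ^ d = 1 → ∀ x ∈ C, ζ * x ∈ C) ∧ ∑ x ∈ C, x ^ d ≠ 0 := by
  have hd0 := dpos hd
  obtain ⟨C, hCV, h0, hcard, hC⟩ : ∃ C : Finset F, C ⊆ V ∧ (∃ x ∈ C, x ≠ 0) ∧
      C.card = d * i + e ∧ (∀ ζ : F, ζ ^ d = 1 → ∀ x ∈ C, ζ * x ∈ C) := by
    obtain ⟨C, hCV, h0, hcard, hC⟩ := exists_inv V hd hV i (by omega)
    have hne : ∃ x ∈ C, x ≠ 0 := by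
      have : 0 < C.card := by rw [hcard]; positivity
      obtain ⟨x, hx⟩ := card_pos.1 this
      exact ⟨x, hx, by rintro rfl; exact h0 hx⟩
    rcases Nat.le_one_iff_eq_zero_or_eq_one.1 he with rfl | rfl
    · exact ⟨C, hCV, hne, by rw [hcard, add_zero], hC⟩
    · refine ⟨insert 0 C, ?_, ?_, ?_, ?_⟩
      · intro z hz
        rcases mem_insert.1 hz with rfl | hz
        · exact h0V
        · exact hCV hz
      · obtain ⟨x, hx, hx0⟩ := hne
        exact ⟨x, mem_insert_of_mem hx, hx0⟩
      · rw [card_insert_of_notMem h0, hcard]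
      · intro ζ hζ z hz
        rcases mem_insert.1 hz with rfl | hz
        · rw [mul_zero]; exact mem_insert_self _ _
        · exact mem_insert_of_mem (hC ζ hζ z hz)
  by_cases hs : ∑ x ∈ C, x ^ d = 0
  · obtain ⟨x, hx, hx0⟩ := h0
    obtain ⟨y, hy, hy'⟩ : ∃ y ∈ V, y ∉ insert 0 C := by
      by_contra hcon
      push Not at hcon
      have h1 := card_le_card (show V ⊆ insert 0 C from hcon)
      have h2 := card_insert_le (0 : F) C
      omega
    rw [mem_insert, not_or] at hy'
    obtain ⟨hy0, hyC⟩ := hy'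
    obtain ⟨C', h1, h2, h3, h4, -⟩ := swap V C hd hV hC hCV hx hx0 hy hyC hy0
    refine ⟨C', h1, by rw [h2, hcard], h3, ?_⟩
    rw [h4, hs, zero_add]
    intro h5
    have h6 : y ^ d = x ^ d := by
      have := congrArg (fun t => t + x ^ d) h5
      simp only [zero_add] at this
      rw [← this]
      rw [add_comm (x ^ d), add_assoc, add_self, add_zero]
    exact hyC (inv_of_pow_eq hC hx0 hx h6)
  · exact ⟨C, hCV, hcard, hC, hs⟩

lemma final_check (C : Finset F) {d : ℕ} (hd : d ∣ Fintype.card F - 1)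
    (hC : ∀ ζ : F, ζ ^ d = 1 → ∀ x ∈ C, ζ * x ∈ C) (hp : ∑ x ∈ C, x ^ d ≠ 0)
    (hT : ∀ v : F, (∀ x ∈ C, x + v ∈ C) → v = 0) (hcase : d ≠ 1 ∨ Even C.card) :
    ∀ a v : F, a ≠ 0 → (∀ x ∈ C, a * x + v ∈ C) → a ^ d = 1 ∧ v = 0 := by
  intro a v ha hav
  have hinj : Function.Injective (fun x : F => a * x + v) := by
    intro x y hxy
    exact mul_left_cancel₀ ha (add_right_cancel hxy)
  have himg := image_self C _ hinj hav
  rcases eq_or_ne d 1 with rfl | hd1
  · have heven : Even C.card := by
      rcases hcase with h | h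
      · exact absurd rfl h
      · exact h
    have h1 := sum_self C _ hinj hav (fun x => x ^ 1)
    simp only [pow_one] at h1 hp ⊢
    rw [sum_add_distrib, sum_const, nsmul_eq_mul, cast_even heven, zero_mul, add_zero,
      ← mul_sum] at h1
    have ha1 : a = 1 := by
      have : (a - 1) * ∑ x ∈ C, x = 0 := by rw [sub_mul, h1, one_mul, sub_self]
      rcases mul_eq_zero.1 this with h | h
      · exact sub_eq_zero.1 h
      · exact absurd h hp
    refine ⟨ha1, hT v ?_⟩
    intro x hx
    have := hav x hx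
    rwa [ha1, one_mul] at this
  · -- a nontrivial root of unity
    obtain ⟨ζ, hζ, hζ1⟩ : ∃ ζ : F, ζ ^ d = 1 ∧ ζ ≠ 1 := by
      by_contra hcon
      push Not at hcon
      have : mu F d ⊆ {1} := by
        intro z hz
        rw [mem_singleton]
        exact hcon z (mem_filter.1 hz).2
      have h2 := card_le_card this
      rw [card_mu hd, card_singleton] at h2
      have := dpos hd
      omega
    have hζ0 : ζ ≠ 0 := by
      rintro rfl
      rw [zero_pow (dpos hd).ne'] at hζ
      exact zero_ne_one hζ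
    have hζi : (ζ⁻¹) ^ d = 1 := by rw [inv_pow, hζ, inv_one]
    have hv : v = 0 := by
      have h1 := hT ((1 - ζ) * v) (by
        intro y hy
        have hy1 := hC _ hζi y hy
        rw [← himg] at hy1
        obtain ⟨x, hx, hxy⟩ := mem_image.1 hy1
        have h2 := hav _ (hC ζ hζ x hx)
        have h3 : y = ζ * (a * x + v) := by
          rw [hxy, ← mul_assoc, mul_inv_cancel₀ hζ0, one_mul]
        have h4 : y + (1 - ζ) * v = a * (ζ * x) + v := by rw [h3]; ring
        rw [h4]; exact h2)
      rcases mul_eq_zero.1 h1 with h | h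
      · exact absurd (sub_eq_zero.1 h).symm hζ1
      · exact h
    refine ⟨?_, hv⟩
    have h1 := sum_self C _ hinj hav (fun x => x ^ d)
    simp only [hv, add_zero, mul_pow] at h1
    rw [← mul_sum] at h1
    have : (a ^ d - 1) * ∑ x ∈ C, x ^ d = 0 := by rw [sub_mul, h1, one_mul, sub_self]
    rcases mul_eq_zero.1 this with h | h
    · exact sub_eq_zero.1 h
    · exact absurd h hp

/-- the swap for `d = 1` -/
lemma swap_one (V C : Finset F) (hCV : C ⊆ V) (hVC : 2 * C.card < V.card) (h3 : 3 ≤ C.card)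
    (v : F) (hv : v ≠ 0) (hCv : ∀ x ∈ C, x + v ∈ C) (hs : ∑ x ∈ C, x ≠ 0) :
    ∃ C' : Finset F, C' ⊆ V ∧ C'.card = C.card ∧ ∑ x ∈ C', x ≠ 0 ∧
      ∀ v' : F, (∀ x ∈ C', x + v' ∈ C') → v' = 0 := by
  have hd : 1 ∣ Fintype.card F - 1 := one_dvd _
  have htr : ∀ (D : Finset F) (w : F), w ≠ 0 → (∀ x ∈ D, x + w ∈ D) → ∑ x ∈ D, x ≠ 0 →
      ∑ x ∈ D, x = w := by
    intro D w hw hD hsD
    have := translation D hd (fun ζ hζ x hx => by
      rw [pow_one] at hζ; rw [hζ, one_mul]; exact hx) w hw hD (by simpa using hsD)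
    simpa using this.2.2.2.2
  have hsv := htr C v hv hCv hs
  obtain ⟨x, hx⟩ := card_pos.1 (show 0 < C.card by omega)
  obtain ⟨u, hu, hu'⟩ : ∃ u ∈ C, u ∉ ({x, x + v} : Finset F) := by
    by_contra hcon
    push Not at hcon
    have h1 := card_le_card (show C ⊆ {x, x + v} from hcon)
    have h2 : ({x, x + v} : Finset F).card ≤ 2 := card_le_two
    omega
  simp only [mem_insert, mem_singleton, not_or] at hu'
  obtain ⟨hux, huxv⟩ := hu'
  obtain ⟨y, hy, hy'⟩ : ∃ y ∈ V, y ∉ C ∪ C.image (fun z => z + (u + x)) := by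
    by_contra hcon
    push Not at hcon
    have h1 := card_le_card (show V ⊆ C ∪ C.image (fun z => z + (u + x)) from hcon)
    have h2 := card_union_le C (C.image (fun z => z + (u + x)))
    have h3 : (C.image (fun z => z + (u + x))).card ≤ C.card := card_image_le
    omega
  rw [mem_union, not_or] at hy'
  obtain ⟨hyC, hyu⟩ := hy'
  have hyu' : y + (u + x) ∉ C := by
    intro h
    apply hyu
    rw [mem_image]
    exact ⟨_, h, by rw [add_assoc, add_self, add_zero]⟩
  have hyx : y ≠ x := by rintro rfl; exact hyC hx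
  have hyCe : y ∉ C.erase x := fun h => hyC (mem_of_mem_erase h)
  have hsum : ∑ z ∈ insert y (C.erase x), z = y + (v + x) := by
    rw [sum_insert hyCe]
    congr 1
    have := add_sum_erase C (fun z => z) hx
    simp only [hsv] at this
    rw [← this, add_comm x, add_assoc, add_self, add_zero]
  have hne : y + (v + x) ≠ 0 := by
    intro h
    have : y = x + v := by
      have h2 := congrArg (fun t => t + (v + x)) h
      simp only [zero_add] at h2
      rw [add_assoc, add_self, add_zero] at h2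
      rw [h2, add_comm]
    rw [this] at hyC
    exact hyC (hCv x hx)
  refine ⟨insert y (C.erase x), ?_, ?_, ?_, ?_⟩
  · intro z hz
    rcases mem_insert.1 hz with rfl | hz
    · exact hy
    · exact hCV (mem_of_mem_erase hz)
  · rw [card_insert_of_notMem hyCe, card_erase_of_mem hx]
    omega
  · rw [hsum]; exact hne
  · intro v' hv'
    by_contra hv0
    have h1 := htr _ v' hv0 hv' (by rw [hsum]; exact hne)
    rw [hsum] at h1
    have h2 : u + v ∈ insert y (C.erase x) := by
      apply mem_insert_of_mem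
      rw [mem_erase]
      refine ⟨?_, hCv u hu⟩
      intro h
      apply huxv
      rw [← h, add_assoc, add_self, add_zero]
    have h3 := hv' _ h2
    rw [← h1] at h3
    have h4 : u + v + (y + (v + x)) = y + (u + x) := by
      have : u + v + (y + (v + x)) = y + (u + x) + (v + v) := by ring
      rw [this, add_self, add_zero]
    rw [h4] at h3
    rcases mem_insert.1 h3 with h5 | h5
    · have h6 : u + x = 0 := by
        have := add_left_cancel (h5.trans (add_zero y).symm)
        exact this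
      apply hux
      have := congrArg (fun t => t + x) h6
      simpa [add_assoc, add_self] using this
    · exact hyu' (mem_of_mem_erase h5)

/-- the swap for `d ≥ 3` -/
lemma swap_big (V C : Finset F) {d : ℕ} (hd : d ∣ Fintype.card F - 1) (hd3 : 3 ≤ d)
    (hV : ∀ ζ : F, ζ ^ d = 1 → ∀ x ∈ V, ζ * x ∈ V)
    (hC : ∀ ζ : F, ζ ^ d = 1 → ∀ x ∈ C, ζ * x ∈ C)
    (hCV : C ⊆ V) (hVC : C.card + (2 * d + 1) < V.card) (h3 : d + 1 < C.card)
    (v : F) (hv : v ≠ 0) (hCv : ∀ x ∈ C, x + v ∈ C) (hs : ∑ x ∈ C, x ^ d ≠ 0) :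
    ∃ C' : Finset F, C' ⊆ V ∧ C'.card = C.card ∧ (∀ ζ : F, ζ ^ d = 1 → ∀ x ∈ C', ζ * x ∈ C') ∧
      ∑ x ∈ C', x ^ d ≠ 0 ∧ ∀ v' : F, (∀ x ∈ C', x + v' ∈ C') → v' = 0 := by
  have hd0 := dpos hd
  obtain ⟨hK, hKv, -, -, hsum⟩ := translation C hd hC v hv hCv hs
  set K := insert 0 (mu F d) with hKdef
  have hKmem : ∀ a, a ∈ K ↔ a = 0 ∨ a ^ d = 1 := by
    intro a; simp [hKdef, mu]
  have h0mu : (0 : F) ∉ mu F d := by simp [mu, hd0.ne']
  have hKcard : K.card = d + 1 := by rw [hKdef, card_insert_of_notMem h0mu, card_mu hd]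
  set L := K.image (fun a => a * v) with hL
  have hLcard : L.card ≤ d + 1 := by rw [← hKcard]; exact card_image_le
  have hLmem : ∀ z, z ∈ L ↔ z = 0 ∨ z ^ d = v ^ d := by
    intro z
    rw [hL, mem_image]
    constructor
    · rintro ⟨a, ha, rfl⟩
      rcases (hKmem a).1 ha with h | h
      · left; rw [h, zero_mul]
      · right; rw [mul_pow, h, one_mul]
    · rintro (h | h)
      · exact ⟨0, (hKmem 0).2 (Or.inl rfl), by rw [zero_mul, h]⟩
      · exact ⟨z * v⁻¹, (hKmem _).2 (Or.inr (by
          rw [mul_pow, inv_pow, h, mul_inv_cancel₀ (pow_ne_zero _ hv)])), by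
          rw [mul_assoc, inv_mul_cancel₀ hv, mul_one]⟩
  -- choose `x`
  obtain ⟨x, hx, hxL⟩ : ∃ x ∈ C, x ∉ L := by
    by_contra hcon
    push Not at hcon
    have h1 := card_le_card (show C ⊆ L from hcon)
    omega
  have hx0 : x ≠ 0 := by
    rintro rfl
    exact hxL ((hLmem 0).2 (Or.inl rfl))
  -- choose `y`
  have hfib : (univ.filter (fun y : F => y ^ d = v ^ d + x ^ d)).card ≤ d := by
    by_cases hex : ∃ y0 : F, y0 ^ d = v ^ d + x ^ d
    · obtain ⟨y0, hy0⟩ := hex
      have hy00 : y0 ≠ 0 := by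
        rintro rfl
        rw [zero_pow hd0.ne'] at hy0
        have h5 : x ^ d = v ^ d := by
          have := congrArg (fun t => t + x ^ d) hy0
          simp only [zero_add] at this
          rw [this, add_assoc, add_self, add_zero]
        exact hxL ((hLmem x).2 (Or.inr h5))
      have : univ.filter (fun y : F => y ^ d = v ^ d + x ^ d) ⊆ orb d y0 := by
        intro z hz
        rw [mem_orb hd hy00, hy0]
        exact (mem_filter.1 hz).2
      have h6 := card_le_card this
      rwa [card_orb hd hy00] at h6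
    · push Not at hex
      rw [filter_false_of_mem (fun y _ => hex y)]
      simp
  obtain ⟨y, hy, hy'⟩ : ∃ y ∈ V, y ∉ C ∪ (L ∪ univ.filter (fun y : F => y ^ d = v ^ d + x ^ d)) := by
    by_contra hcon
    push Not at hcon
    have h1 := card_le_card (show V ⊆ C ∪ (L ∪ univ.filter (fun y : F => y ^ d = v ^ d + x ^ d)) from hcon)
    have h2 := card_union_le C (L ∪ univ.filter (fun y : F => y ^ d = v ^ d + x ^ d))
    have h3 := card_union_le L (univ.filter (fun y : F => y ^ d = v ^ d + x ^ d))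
    omega
  rw [mem_union, mem_union, not_or, not_or] at hy'
  obtain ⟨hyC, hyL, hyf⟩ := hy'
  have hyf' : y ^ d ≠ v ^ d + x ^ d := fun h => hyf (mem_filter.2 ⟨mem_univ _, h⟩)
  have hy0 : y ≠ 0 := by
    rintro rfl
    exact hyL ((hLmem 0).2 (Or.inl rfl))
  obtain ⟨C', hC'V, hC'card, hC'mu, hC'sum, hC'mem⟩ := swap V C hd hV hC hCV hx hx0 hy hyC hy0
  rw [hsum] at hC'sum
  have hne : ∑ z ∈ C', z ^ d ≠ 0 := by
    rw [hC'sum]
    intro h
    apply hyf'
    have := congrArg (fun t => t + y ^ d) h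
    simp only [zero_add] at this
    rw [← this, add_assoc, add_self, add_zero]
  refine ⟨C', hC'V, hC'card, hC'mu, hne, ?_⟩
  intro v' hv'
  by_contra hv0
  obtain ⟨-, -, -, -, hsum'⟩ := translation C' hd hC'mu v' hv0 hv' hne
  rw [hC'sum] at hsum'
  have hdist : ∀ (p r : F), p ∉ L → ∀ a ∈ K, ∀ b ∈ K, (r + a * v) ^ d = p ^ d →
      (r + b * v) ^ d = p ^ d → a = b := by
    intro p r hp a ha b hb h1 h2
    by_contra hab
    have hp0 : p ≠ 0 := by
      rintro rfl
      exact hp ((hLmem 0).2 (Or.inl rfl))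
    -- `r + a v = c p`, `r + b v = e p`
    have hc : ((r + a * v) * p⁻¹) ^ d = 1 := by
      rw [mul_pow, inv_pow, h1, mul_inv_cancel₀ (pow_ne_zero _ hp0)]
    have he : ((r + b * v) * p⁻¹) ^ d = 1 := by
      rw [mul_pow, inv_pow, h2, mul_inv_cancel₀ (pow_ne_zero _ hp0)]
    have h3 := hK _ _ (Or.inr hc) (Or.inr he)
    have h4 : (r + a * v) * p⁻¹ + (r + b * v) * p⁻¹ = (a + b) * v * p⁻¹ := by
      have : (r + a * v) * p⁻¹ + (r + b * v) * p⁻¹ = (a + b) * v * p⁻¹ + (r + r) * p⁻¹ := by ring
      rw [this, add_self, zero_mul, add_zero]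
    have h5 : a + b ≠ 0 := by
      intro h
      apply hab
      have := congrArg (fun t => t + b) h
      simpa [add_assoc, add_self] using this
    have h6 := hK _ _ ((hKmem a).1 ha) ((hKmem b).1 hb)
    have h6' : (a + b) ^ d = 1 := by
      rcases h6 with h | h
      · exact absurd h h5
      · exact h
    rw [h4] at h3
    rcases h3 with h | h
    · rcases mul_eq_zero.1 h with h | h
      · rcases mul_eq_zero.1 h with h | h
        · exact h5 h
        · exact hv h
      · exact inv_ne_zero hp0 h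
    · rw [mul_pow, mul_pow, h6', one_mul, inv_pow] at h
      apply hp
      rw [hLmem]
      right
      have h7 : v ^ d = p ^ d := by
        have := congrArg (fun t => t * p ^ d) h
        simp only [one_mul] at this
        rw [mul_assoc, inv_mul_cancel₀ (pow_ne_zero _ hp0), mul_one] at this
        exact this
      exact h7.symm
  -- `C` is invariant under `v'`
  have hCv' : ∀ z ∈ C, z + v' ∈ C := by
    intro z hz
    have hA : (K.filter (fun a => (z + a * v) ^ d = x ^ d)).card ≤ 1 := by
      rw [card_le_one]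
      intro a ha b hb
      exact hdist x z hxL a (mem_filter.1 ha).1 b (mem_filter.1 hb).1 (mem_filter.1 ha).2
        (mem_filter.1 hb).2
    have hB : (K.filter (fun a => (z + v' + a * v) ^ d = y ^ d)).card ≤ 1 := by
      rw [card_le_one]
      intro a ha b hb
      exact hdist y (z + v') hyL a (mem_filter.1 ha).1 b (mem_filter.1 hb).1 (mem_filter.1 ha).2
        (mem_filter.1 hb).2
    obtain ⟨a, ha, ha'⟩ : ∃ a ∈ K, a ∉ K.filter (fun a => (z + a * v) ^ d = x ^ d) ∪
        K.filter (fun a => (z + v' + a * v) ^ d = y ^ d) := by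
      by_contra hcon
      push Not at hcon
      have h1 := card_le_card (show K ⊆ K.filter (fun a => (z + a * v) ^ d = x ^ d) ∪
        K.filter (fun a => (z + v' + a * v) ^ d = y ^ d) from hcon)
      have h2 := card_union_le (K.filter (fun a => (z + a * v) ^ d = x ^ d))
        (K.filter (fun a => (z + v' + a * v) ^ d = y ^ d))
      omega
    rw [mem_union, mem_filter, mem_filter, not_or, not_and, not_and] at ha'
    have ha1 := ha'.1 ha
    have ha2 := ha'.2 ha
    have h1 : z + a * v ∈ C := hKv a ((hKmem a).1 ha) z hz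
    have h2 : z + a * v ∈ C' := (hC'mem _).2 (Or.inl ⟨h1, ha1⟩)
    have h3 := hv' _ h2
    have h4 : z + a * v + v' = z + v' + a * v := by ring
    rw [h4] at h3
    rcases (hC'mem _).1 h3 with h5 | h5
    · have h6 := hKv a ((hKmem a).1 ha) _ h5.1
      rwa [add_assoc, add_self, add_zero] at h6
    · exact absurd h5 ha2
  obtain ⟨-, -, -, -, hsum''⟩ := translation C hd hC v' hv0 hCv' hs
  rw [hsum] at hsum''
  rw [← hsum''] at hsum'
  -- `x ^ d = y ^ d`
  have h7 : y ^ d = x ^ d := by
    have h8 : v ^ d + (x ^ d + y ^ d) = v ^ d + 0 := by rw [← add_assoc, hsum', add_zero]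
    have h9 := add_left_cancel h8
    have := congrArg (fun t => x ^ d + t) h9
    simp only [add_zero] at this
    rw [← this, ← add_assoc, add_self, zero_add]
  exact hyC (inv_of_pow_eq hC hx0 hx h7)

lemma add_eq_zero' {a b : F} : a + b = 0 ↔ a = b := by
  constructor
  · intro h
    have := congrArg (fun t => t + b) h
    simpa [add_assoc, add_self] using this
  · rintro rfl; exact add_self a

/-- the two-point swap that keeps the sum -/
lemma swap_two (V C : Finset F) (hadd : ∀ x ∈ V, ∀ y ∈ V, x + y ∈ V) (hCV : C ⊆ V)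
    (x y t : F) (hx : x ∈ C) (hy : y ∈ C) (hxy : x ≠ y) (ht : t ∈ V) (hxt : x + t ∉ C)
    (hyt : y + t ∉ C) :
    ∃ C' : Finset F, C' ⊆ V ∧ C'.card = C.card ∧ ∑ z ∈ C', z = ∑ z ∈ C, z ∧
      ∑ z ∈ C', z ^ 3 = ∑ z ∈ C, z ^ 3 + (x + y) * t * (x + y + t) ∧
      ∀ z, z ∈ C' ↔ (z ∈ C ∧ z ≠ x ∧ z ≠ y) ∨ z = x + t ∨ z = y + t := by
  set D := (C.erase x).erase y with hD
  have hyD : y ∈ C.erase x := mem_erase.2 ⟨hxy.symm, hy⟩
  have h1 : x + t ∉ insert (y + t) D := by
    rw [mem_insert, not_or]
    refine ⟨fun h => hxy (add_right_cancel h), ?_⟩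
    intro h
    exact hxt (mem_of_mem_erase (mem_of_mem_erase h))
  have h2 : y + t ∉ D := fun h => hyt (mem_of_mem_erase (mem_of_mem_erase h))
  have hsum : ∀ f : F → F, ∑ z ∈ insert (x + t) (insert (y + t) D), f z =
      ∑ z ∈ C, f z + (f x + f y + f (x + t) + f (y + t)) := by
    intro f
    rw [sum_insert h1, sum_insert h2, ← add_sum_erase C f hx, ← add_sum_erase _ f hyD]
    have : f x + (f y + ∑ z ∈ D, f z) + (f x + f y + f (x + t) + f (y + t)) =
      (f x + f x) + (f y + f y) + (f (x + t) + (f (y + t) + ∑ z ∈ D, f z)) := by ring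
    rw [this, add_self, add_self, zero_add, zero_add]
  refine ⟨insert (x + t) (insert (y + t) D), ?_, ?_, ?_, ?_, ?_⟩
  · intro z hz
    rw [mem_insert, mem_insert] at hz
    rcases hz with rfl | rfl | hz
    · exact hadd _ (hCV hx) _ ht
    · exact hadd _ (hCV hy) _ ht
    · exact hCV (mem_of_mem_erase (mem_of_mem_erase hz))
  · rw [card_insert_of_notMem h1, card_insert_of_notMem h2, card_erase_of_mem hyD,
      card_erase_of_mem hx]
    have := card_pos.2 ⟨y, hyD⟩
    rw [card_erase_of_mem hx] at this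
    omega
  · rw [hsum]
    have : x + y + (x + t) + (y + t) = (x + x) + (y + y) + (t + t) := by ring
    rw [this, add_self x, add_self y, add_self t]; ring
  · rw [hsum (fun z => z ^ 3)]
    congr 1
    have : x ^ 3 + y ^ 3 + (x + t) ^ 3 + (y + t) ^ 3 = (x + y) * t * (x + y + t) +
      2 * (x ^ 3 + y ^ 3 + x ^ 2 * t + y ^ 2 * t + x * t ^ 2 + y * t ^ 2 + t ^ 3 - x * y * t) := by
      ring
    have h20 : (2 : F) = 0 := by
      have := CharP.cast_eq_zero F 2
      simpa using this
    rw [this, h20, zero_mul, add_zero]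
  · intro z
    rw [mem_insert, mem_insert, hD, mem_erase, mem_erase]
    tauto

lemma exists_t (V C : Finset F)
    (hVC : 2 * C.card + 2 ≤ V.card) (x y : F) (hx : x ∈ C) (hy : y ∈ C) (hxy : x ≠ y)
    (c : F) : ∃ t ∈ V, x + t ∉ C ∧ y + t ∉ C ∧ (x + y) * t * (x + y + t) ≠ c := by
  set A := C.image (fun z => z + x) with hA
  set B := C.image (fun z => z + y) with hB
  have hAc : A.card = C.card := card_image_of_injective _ (fun a b h => add_right_cancel h)
  have hBc : B.card = C.card := card_image_of_injective _ (fun a b h => add_right_cancel h)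
  have hint : ({0, x + y} : Finset F) ⊆ A ∩ B := by
    intro z hz
    rw [mem_insert, mem_singleton] at hz
    rw [mem_inter, hA, hB, mem_image, mem_image]
    rcases hz with rfl | rfl
    · exact ⟨⟨x, hx, add_self x⟩, ⟨y, hy, add_self y⟩⟩
    · exact ⟨⟨y, hy, add_comm _ _⟩, ⟨x, hx, rfl⟩⟩
  have hne : (0 : F) ≠ x + y := fun h => hxy (add_eq_zero'.1 h.symm)
  have h2 : 2 ≤ (A ∩ B).card := by
    have := card_le_card hint
    rwa [card_pair hne] at this
  have hAB : (A ∪ B).card ≤ 2 * C.card - 2 := by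
    have := card_union_add_card_inter A B
    omega
  set S := V.filter (fun t => (x + y) * t * (x + y + t) = c) with hS
  have hSc : S.card ≤ 2 := by
    by_cases hex : ∃ t0 ∈ S, True
    · obtain ⟨t0, ht0, -⟩ := hex
      have : S ⊆ {t0, t0 + (x + y)} := by
        intro t ht
        rw [hS, mem_filter] at ht ht0
        have h3 : (x + y) * ((t + t0) * (t + (t0 + (x + y)))) = 0 := by
          have h4 : (x + y) * ((t + t0) * (t + (t0 + (x + y)))) =
            ((x + y) * t * (x + y + t) + (x + y) * t0 * (x + y + t0)) + 2 * ((x + y) * t * t0) := by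
            ring
          have h20 : (2 : F) = 0 := by
            have := CharP.cast_eq_zero F 2
            simpa using this
          rw [h4, ht.2, ht0.2, h20, add_self]; ring
        rcases mul_eq_zero.1 h3 with h5 | h5
        · exact absurd h5.symm hne
        · rw [mem_insert, mem_singleton]
          rcases mul_eq_zero.1 h5 with h6 | h6
          · left; exact add_eq_zero'.1 h6
          · right; exact add_eq_zero'.1 h6
      exact (card_le_card this).trans card_le_two
    · push Not at hex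
      have : S = ∅ := by
        rw [eq_empty_iff_forall_notMem]
        intro t ht
        exact hex t ht
      rw [this]; simp
  obtain ⟨t, ht, ht'⟩ : ∃ t ∈ V, t ∉ (A ∪ B) ∪ S := by
    by_contra hcon
    push Not at hcon
    have h3 := card_le_card (show V ⊆ (A ∪ B) ∪ S from hcon)
    have h4 := card_union_le (A ∪ B) S
    have h5 : 0 < C.card := card_pos.2 ⟨x, hx⟩
    omega
  rw [mem_union, mem_union, not_or, not_or] at ht'
  obtain ⟨⟨htA, htB⟩, htS⟩ := ht'
  refine ⟨t, ht, ?_, ?_, ?_⟩
  · intro h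
    apply htA
    rw [hA, mem_image]
    exact ⟨_, h, by rw [add_comm x t, add_assoc, add_self, add_zero]⟩
  · intro h
    apply htB
    rw [hB, mem_image]
    exact ⟨_, h, by rw [add_comm y t, add_assoc, add_self, add_zero]⟩
  · intro h
    exact htS (mem_filter.2 ⟨ht, h⟩)

/-- trivial stabilizer, `j` odd -/
lemma core_one_odd (V : Finset F) (h0 : (0 : F) ∈ V) (hadd : ∀ x ∈ V, ∀ y ∈ V, x + y ∈ V) (j : ℕ)
    (hj : Odd j) (hj3 : 3 ≤ j) (hjV : 2 * j + 2 ≤ V.card) :
    ∃ C : Finset F, C ⊆ V ∧ C.card = j ∧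
      ∀ a v : F, a ≠ 0 → (∀ x ∈ C, a * x + v ∈ C) → a = 1 ∧ v = 0 := by
  -- a set with sum zero
  obtain ⟨C0, hC0V, hC0c⟩ := exists_subset_card_eq (show j ≤ V.card by omega)
  obtain ⟨C1, hC1V, hC1c, hC1s⟩ : ∃ C : Finset F, C ⊆ V ∧ C.card = j ∧ ∑ x ∈ C, x = 0 := by
    set s := ∑ x ∈ C0, x with hs
    have hsV : s ∈ V := by
      rw [hs]
      have : ∀ D : Finset F, D ⊆ V → ∑ x ∈ D, x ∈ V := by
        intro D
        induction D using Finset.induction_on with
        | empty => intro _; simpa using h0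
        | insert a D ha ih =>
          intro hD
          rw [sum_insert ha]
          exact hadd _ (hD (mem_insert_self _ _)) _ (ih ((subset_insert _ _).trans hD))
      exact this C0 hC0V
    refine ⟨C0.image (fun z => z + s), ?_, ?_, ?_⟩
    · intro z hz
      obtain ⟨w, hw, rfl⟩ := mem_image.1 hz
      exact hadd _ (hC0V hw) _ hsV
    · rw [card_image_of_injective _ (fun a b h => add_right_cancel h), hC0c]
    · rw [sum_image (fun a _ b _ h => add_right_cancel h), sum_add_distrib, ← hs, sum_const,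
        hC0c, nsmul_eq_mul, cast_odd hj, one_mul, add_self]
  -- sum zero and `p_3 ≠ 0`
  have hpair : ∀ C : Finset F, C.card = j → ∃ x ∈ C, ∃ y ∈ C, x ≠ y := by
    intro C hC
    obtain ⟨x, hx, y, hy, hxy⟩ := one_lt_card.1 (show 1 < C.card by omega)
    exact ⟨x, hx, y, hy, hxy⟩
  obtain ⟨C2, hC2V, hC2c, hC2s, hC2p⟩ : ∃ C : Finset F, C ⊆ V ∧ C.card = j ∧ ∑ x ∈ C, x = 0 ∧
      ∑ x ∈ C, x ^ 3 ≠ 0 := by
    by_cases hp : ∑ x ∈ C1, x ^ 3 = 0
    · obtain ⟨x, hx, y, hy, hxy⟩ := hpair C1 hC1c
      obtain ⟨t, ht, hxt, hyt, hne⟩ := exists_t V C1 (by omega) x y hx hy hxy 0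
      obtain ⟨C', h1, h2, h3, h4, -⟩ := swap_two V C1 hadd hC1V x y t hx hy hxy ht hxt hyt
      exact ⟨C', h1, by omega, by rw [h3, hC1s], by rw [h4, hp, zero_add]; exact hne⟩
    · exact ⟨C1, hC1V, hC1c, hC1s, hp⟩
  -- the check
  have hcheck : ∀ C : Finset F, C.card = j → ∑ x ∈ C, x = 0 → ∑ x ∈ C, x ^ 3 ≠ 0 →
      (∀ a : F, a ^ 3 = 1 → (∀ x ∈ C, a * x ∈ C) → a = 1) →
      ∀ a v : F, a ≠ 0 → (∀ x ∈ C, a * x + v ∈ C) → a = 1 ∧ v = 0 := by
    intro C hc hs hp h3 a v ha hav
    have hinj : Function.Injective (fun x : F => a * x + v) := by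
      intro x y hxy
      exact mul_left_cancel₀ ha (add_right_cancel hxy)
    have h1 := sum_self C _ hinj hav (fun x => x)
    rw [sum_add_distrib, sum_const, nsmul_eq_mul, hc, cast_odd hj, one_mul, ← mul_sum, hs,
      mul_zero, zero_add] at h1
    refine ⟨?_, h1⟩
    have hav' : ∀ x ∈ C, a * x ∈ C := by
      intro x hx
      have := hav x hx
      rwa [h1, add_zero] at this
    have h2 := sum_self C _ hinj hav (fun x => x ^ 3)
    simp only [h1, add_zero, mul_pow] at h2
    rw [← mul_sum] at h2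
    have h4 : (a ^ 3 - 1) * ∑ x ∈ C, x ^ 3 = 0 := by rw [sub_mul, h2, one_mul, sub_self]
    rcases mul_eq_zero.1 h4 with h | h
    · exact h3 a (sub_eq_zero.1 h) hav'
    · exact absurd h hp
  by_cases hinv : ∀ a : F, a ^ 3 = 1 → (∀ x ∈ C2, a * x ∈ C2) → a = 1
  · exact ⟨C2, hC2V, hC2c, hcheck C2 hC2c hC2s hC2p hinv⟩
  · push Not at hinv
    obtain ⟨a, ha3, haC, ha1⟩ := hinv
    obtain ⟨x, hx, y, hy, hxy⟩ := hpair C2 hC2c
    obtain ⟨t, ht, hxt, hyt, hne⟩ := exists_t V C2 (by omega) x y hx hy hxy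
      (∑ x ∈ C2, x ^ 3)
    obtain ⟨C', h1, h2, h3, h4, h5⟩ := swap_two V C2 hadd hC2V x y t hx hy hxy ht hxt hyt
    refine ⟨C', h1, by omega, hcheck C' (by omega) (by rw [h3, hC2s]) ?_ ?_⟩
    · rw [h4]
      intro h
      exact hne (add_eq_zero'.1 h).symm
    · intro b hb3 hbC
      by_contra hb1
      -- `a` fixes `C'`
      have haC' : ∀ z ∈ C', a * z ∈ C' := by
        have hab : (b - a) * (b + a + 1) = 0 := by
          have e1 : b ^ 2 + b + 1 = 0 := by
            have : (b - 1) * (b ^ 2 + b + 1) = 0 := by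
              have : (b - 1) * (b ^ 2 + b + 1) = b ^ 3 - 1 := by ring
              rw [this, hb3, sub_self]
            rcases mul_eq_zero.1 this with h | h
            · exact absurd (sub_eq_zero.1 h) hb1
            · exact h
          have e2 : a ^ 2 + a + 1 = 0 := by
            have : (a - 1) * (a ^ 2 + a + 1) = 0 := by
              have : (a - 1) * (a ^ 2 + a + 1) = a ^ 3 - 1 := by ring
              rw [this, ha3, sub_self]
            rcases mul_eq_zero.1 this with h | h
            · exact absurd (sub_eq_zero.1 h) ha1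
            · exact h
          have : (b - a) * (b + a + 1) = (b ^ 2 + b + 1) - (a ^ 2 + a + 1) := by ring
          rw [this, e1, e2, sub_zero]
        have e2 : a ^ 2 + a + 1 = 0 := by
          have : (a - 1) * (a ^ 2 + a + 1) = 0 := by
            have : (a - 1) * (a ^ 2 + a + 1) = a ^ 3 - 1 := by ring
            rw [this, ha3, sub_self]
          rcases mul_eq_zero.1 this with h | h
          · exact absurd (sub_eq_zero.1 h) ha1
          · exact h
        intro z hz
        rcases mul_eq_zero.1 hab with h | h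
        · rw [← sub_eq_zero.1 h]; exact hbC z hz
        · -- `b = a ^ 2`, `b ^ 2 = a`
          have hb : b = a ^ 2 := by
            have e3 : b + (a + 1) = 0 := by rw [← add_assoc]; exact h
            have e4 : a ^ 2 + (a + 1) = 0 := by rw [← add_assoc]; exact e2
            exact add_right_cancel (e3.trans e4.symm)
          have hb2 : a = b * b := by
            rw [hb]
            have : a ^ 2 * a ^ 2 = a ^ 3 * a := by ring
            rw [this, ha3, one_mul]
          rw [hb2, mul_assoc]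
          exact hbC _ (hbC z hz)
      -- `a` permutes `{x, y}`
      have hxC' : x ∉ C' := by
        rw [h5]
        rintro (h | h | h)
        · exact h.2.1 rfl
        · apply hxt; rw [← h]; exact hx
        · apply hyt; rw [← h]; exact hx
      have hyC' : y ∉ C' := by
        rw [h5]
        rintro (h | h | h)
        · exact h.2.2 rfl
        · apply hxt; rw [← h]; exact hy
        · apply hyt; rw [← h]; exact hy
      have ha0 : a ≠ 0 := by
        rintro rfl
        norm_num at ha3
      have hinvC' : ∀ z, a * z ∈ C' → z ∈ C' := by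
        intro z hz
        have := haC' _ (haC' _ hz)
        rw [← mul_assoc, ← mul_assoc] at this
        have e : a * a * a = 1 := by rw [← ha3]; ring
        rwa [e, one_mul] at this
      have hperm : ∀ z, z ∈ C2 → z ∉ C' → z = x ∨ z = y := by
        intro z hz hz'
        by_contra hcon
        rw [not_or] at hcon
        exact hz' ((h5 z).2 (Or.inl ⟨hz, hcon.1, hcon.2⟩))
      have hax := hperm _ (haC x hx) (fun h => hxC' (hinvC' x h))
      have hay := hperm _ (haC y hy) (fun h => hyC' (hinvC' y h))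
      have hfix : ∀ z : F, a * z = z → z = 0 := by
        intro z hz
        have : (a - 1) * z = 0 := by rw [sub_mul, hz, one_mul, sub_self]
        rcases mul_eq_zero.1 this with h | h
        · exact absurd (sub_eq_zero.1 h) ha1
        · exact h
      rcases hax with hax | hax
      · have hx0 := hfix x hax
        rcases hay with hay | hay
        · rw [hx0] at hay
          rcases mul_eq_zero.1 hay with h | h
          · exact ha0 h
          · exact hxy (by rw [hx0, h])
        · exact hxy (by rw [hx0, hfix y hay])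
      · rcases hay with hay | hay
        · have h6 : (a * a) * x = x := by rw [mul_assoc, hax, hay]
          have h7 : a * x = x := by
            calc a * x = a * ((a * a) * x) := by rw [h6]
              _ = a ^ 3 * x := by ring
              _ = x := by rw [ha3, one_mul]
          exact hxy (by rw [← hax, h7])
        · have hy0 := hfix y hay
          rw [hy0] at hax
          rcases mul_eq_zero.1 hax with h | h
          · exact ha0 h
          · exact hxy (by rw [hy0, h])

/-- the main construction -/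
theorem core (V : Finset F) (h0 : (0 : F) ∈ V) (hadd : ∀ x ∈ V, ∀ y ∈ V, x + y ∈ V) {d : ℕ}
    (hd : d ∣ Fintype.card F - 1) (hV : ∀ ζ : F, ζ ^ d = 1 → ∀ x ∈ V, ζ * x ∈ V) (n : ℕ)
    (hn : V.card = 2 ^ n) (j i e : ℕ) (hje : j = d * i + e) (he : e ≤ 1) (hj3 : 3 ≤ j)
    (hjV : 2 * j ≤ V.card) (hpow : ∀ m, j ≠ 2 ^ m) :
    ∃ C : Finset F, C ⊆ V ∧ C.card = j ∧ (∀ ζ : F, ζ ^ d = 1 → ∀ x ∈ C, ζ * x ∈ C) ∧
      ∀ a v : F, a ≠ 0 → (∀ x ∈ C, a * x + v ∈ C) → a ^ d = 1 ∧ v = 0 := by
  have hd0 := dpos hd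
  have hdodd := odd_d (F := F) hd
  have hn3 : 3 ≤ n := by
    by_contra hcon
    have : n ≤ 2 := by omega
    have : 2 ^ n ≤ 2 ^ 2 := Nat.pow_le_pow_right (by norm_num) this
    omega
  have hne : 2 * j ≠ V.card := by
    intro h
    apply hpow (n - 1)
    have : 2 ^ n = 2 * 2 ^ (n - 1) := by
      rw [← pow_succ']; congr 1; omega
    omega
  have heven : Even V.card := by
    rw [hn, Nat.even_pow]; exact ⟨even_two, by omega⟩
  have h4 : 4 ∣ V.card := by
    rw [hn]
    exact pow_dvd_pow 2 (show 2 ≤ n by omega)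
  by_cases hcase : d = 1 ∧ Odd j
  · obtain ⟨rfl, hodd⟩ := hcase
    obtain ⟨C, hCV, hCc, hC⟩ := core_one_odd V h0 hadd j hodd hj3 (by
      obtain ⟨c, hc⟩ := heven
      omega)
    refine ⟨C, hCV, hCc, ?_, ?_⟩
    · intro ζ hζ x hx
      rw [pow_one] at hζ
      rw [hζ, one_mul]; exact hx
    · simpa using hC
  · have hcase' : d ≠ 1 ∨ Even j := by
      rw [not_and_or, Nat.not_odd_iff_even] at hcase
      exact hcase
    have hi : 1 ≤ i := by
      by_contra hcon
      have : i = 0 := by omega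
      rw [this, mul_zero] at hje
      omega
    obtain ⟨C, hCV, hCc, hC, hCp⟩ := exists_start V h0 hd hV i e hi he (by
      obtain ⟨c, hc⟩ := h4
      omega)
    rw [← hje] at hCc
    by_cases hT : ∀ v : F, (∀ x ∈ C, x + v ∈ C) → v = 0
    · exact ⟨C, hCV, hCc, hC, final_check C hd hC hCp hT (by rw [hCc]; exact hcase')⟩
    · push Not at hT
      obtain ⟨v, hCv, hv⟩ := hT
      obtain ⟨-, -, ⟨m, hm, hmodd⟩, ⟨s, hs⟩, -⟩ := translation C hd hC v hv hCv hCp
      have hm3 : 3 ≤ m := by
        rcases Nat.lt_or_ge m 3 with h | h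
        · exfalso
          have hm1 : m = 1 := by
            obtain ⟨c, hc⟩ := hmodd
            omega
          apply hpow s
          rw [← hCc, hm, hm1, mul_one, hs]
        · exact h
      have hd2 : d ≠ 2 := by
        rintro rfl
        exact absurd hdodd (by decide)
      rcases Nat.lt_or_ge d 3 with hd3 | hd3
      · have hd1 : d = 1 := by omega
        subst hd1
        obtain ⟨C', g1, g2, g3, g4⟩ := swap_one V C hCV (by omega) (by omega) v hv hCv
          (by simpa using hCp)
        have hC' : ∀ ζ : F, ζ ^ 1 = 1 → ∀ x ∈ C', ζ * x ∈ C' := by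
          intro ζ hζ x hx
          rw [pow_one] at hζ
          rw [hζ, one_mul]; exact hx
        refine ⟨C', g1, by omega, hC', final_check C' hd hC' (by simpa using g3) g4 ?_⟩
        right
        rw [g2, hm]
        exact (show Even (1 + 1) by decide).mul_right m
      · have hbig : 3 * (d + 1) ≤ j := by
          rw [← hCc, hm, mul_comm]
          exact Nat.mul_le_mul_left _ hm3
        obtain ⟨C', g1, g2, g3, g4, g5⟩ := swap_big V C hd hd3 hV hC hCV (by omega) (by omega) v hv
          hCv hCp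
        exact ⟨C', g1, by omega, g3, final_check C' hd g3 g4 g5 (Or.inl (by omega))⟩

end Core

section Main

variable {F : Type u} [Field F]

/-- `AGL(1, F)`: the maps `x ↦ a x + b` with `a ≠ 0`, as permutations of `F`. -/
def AGL (F : Type u) [Field F] : Set (Equiv.Perm F) :=
  {σ | ∃ a b : F, a ≠ 0 ∧ ∀ x, σ x = a * x + b}

/-- The stabilizer of `B ⊆ F` in `AGL(1, F)`. -/
def stabilizer (B : Set F) : Set (Equiv.Perm F) := {σ | σ ∈ AGL F ∧ σ '' B = B}

/-- The group `S_{d,H}` of the maps `x ↦ ζ x + h` with `ζ ^ d = 1`, `h ∈ H`. -/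
def S (d : ℕ) (H : AddSubgroup F) : Set (Equiv.Perm F) :=
  {σ | ∃ ζ h : F, ζ ^ d = 1 ∧ h ∈ H ∧ ∀ x, σ x = ζ * x + h}

/-- `N(S, k)`: the number of `k`-subsets of `F` whose stabilizer is exactly `S`. -/
noncomputable def N (T : Set (Equiv.Perm F)) (k : ℕ) : ℕ :=
  {B : Set F | B.ncard = k ∧ stabilizer B = T}.ncard

/-- The multiplier field of an additive subgroup. -/
def mult [Finite F] (H : AddSubgroup F) : Subfield F where
  carrier := {a | ∀ h ∈ H, a * h ∈ H}
  mul_mem' := by
    intro a b ha hb h hh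
    rw [mul_assoc]
    exact ha _ (hb h hh)
  one_mem' := by
    intro h hh
    rwa [one_mul]
  add_mem' := by
    intro a b ha hb h hh
    rw [add_mul]
    exact H.add_mem (ha h hh) (hb h hh)
  zero_mem' := by
    intro h hh
    rw [zero_mul]; exact H.zero_mem
  neg_mem' := by
    intro a ha h hh
    rw [neg_mul]; exact H.neg_mem (ha h hh)
  inv_mem' := by
    intro a ha
    have hpow : ∀ n : ℕ, ∀ h ∈ H, a ^ n * h ∈ H := by
      intro n
      induction n with
      | zero => intro h hh; simpa using hh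
      | succ n ih =>
        intro h hh
        have := ha _ (ih h hh)
        rwa [← mul_assoc, ← pow_succ'] at this
    rcases eq_or_ne a 0 with h0 | h0
    · rw [h0, inv_zero]
      intro h hh
      rw [zero_mul]; exact H.zero_mem
    · classical
      have : Fintype F := Fintype.ofFinite F
      have h1 : 1 < Fintype.card F := Fintype.one_lt_card
      have h2 : a⁻¹ = a ^ (Fintype.card F - 2) := by
        have h3 := FiniteField.pow_card_sub_one_eq_one a h0
        apply inv_eq_of_mul_eq_one_right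
        rw [← pow_succ']
        have h4 : Fintype.card F - 2 + 1 = Fintype.card F - 1 := by omega
        rw [h4, h3]
      rw [h2]
      exact hpow _

lemma mem_mult [Finite F] (H : AddSubgroup F) (a : F) : a ∈ mult H ↔ ∀ h ∈ H, a * h ∈ H := Iff.rfl

/-- **Full answer to Q1 (yes).** -/
theorem result (F : Type u) [Field F] [Finite F] [CharP F 2] (d : ℕ) (hd : d ∣ Nat.card F - 1)
    (H : AddSubgroup F) (hH : ∀ ζ : F, ζ ^ d = 1 → ∀ h ∈ H, ζ * h ∈ H) (k : ℕ) (hk3 : 3 ≤ k)
    (hk : 2 * k ≤ Nat.card F)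
    (hmod : k ≡ 0 [MOD d * Nat.card H] ∨ k ≡ Nat.card H [MOD d * Nat.card H])
    (hN : N (S d H) k = 0) : ∃ n : ℕ, k = 2 ^ n := by
  classical
  by_contra hcon
  push Not at hcon
  let _ : Fintype F := Fintype.ofFinite F
  rw [Nat.card_eq_fintype_card] at hd hk
  have hd0 := dpos hd
  -- the multiplier field and a complement
  let L := mult H
  let HL : Submodule L F :=
    { carrier := H
      add_mem' := fun {a b} ha hb => H.add_mem ha hb
      zero_mem' := H.zero_mem
      smul_mem' := fun c x hx => c.2 x hx }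
  have hHL : ∀ x, x ∈ HL ↔ x ∈ H := fun x => Iff.rfl
  obtain ⟨VL, hcompl⟩ := HL.exists_isCompl
  set V : Finset F := univ.filter (fun x => x ∈ VL) with hVdef
  have hVmem : ∀ x, x ∈ V ↔ x ∈ VL := by intro x; simp [hVdef]
  have huniq : ∀ c c' h h' : F, c ∈ VL → c' ∈ VL → h ∈ H → h' ∈ H → c + h = c' + h' → c = c' := by
    intro c c' h h' hc hc' hh hh' he
    have h1 : c - c' = h' - h := by linear_combination he
    have h2 : c - c' ∈ VL := VL.sub_mem hc hc'
    have h3 : c - c' ∈ HL := by rw [h1]; exact H.sub_mem hh' hh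
    exact sub_eq_zero.1 (Submodule.disjoint_def.1 hcompl.disjoint _ h3 h2)
  have hex : ∀ b : F, ∃ h ∈ H, ∃ v ∈ VL, h + v = b := by
    intro b
    have : b ∈ HL ⊔ VL := by
      rw [codisjoint_iff.1 hcompl.codisjoint]; trivial
    obtain ⟨y, hy, z, hz, hyz⟩ := Submodule.mem_sup.1 this
    exact ⟨y, hy, z, hz, hyz⟩
  have hcard : Fintype.card F = Nat.card H * V.card := by
    have e := Submodule.prodEquivOfIsCompl HL VL hcompl
    have h1 := Nat.card_congr e.toEquiv
    rw [Nat.card_prod, Nat.card_eq_fintype_card (α := F)] at h1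
    rw [← h1]
    congr 1
    rw [Nat.card_eq_fintype_card, hVdef, ← Fintype.card_subtype]
  have hHpos : 0 < Nat.card H := Nat.card_pos
  obtain ⟨nF, -, hnF⟩ := FiniteField.card F 2
  obtain ⟨s, -, hs⟩ := (Nat.dvd_prime_pow Nat.prime_two).1
    (show Nat.card H ∣ 2 ^ (nF : ℕ) by rw [← hnF, hcard]; exact Dvd.intro _ rfl)
  obtain ⟨n, -, hn⟩ := (Nat.dvd_prime_pow Nat.prime_two).1
    (show V.card ∣ 2 ^ (nF : ℕ) by rw [← hnF, hcard]; exact Dvd.intro_left _ rfl)
  set hc := Nat.card H with hhc
  -- the number `j`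
  obtain ⟨j, i, e, hkj, hje, he⟩ : ∃ j i e, k = hc * j ∧ j = d * i + e ∧ e ≤ 1 := by
    have hdiv := Nat.div_add_mod k (d * hc)
    have hz : k % (d * hc) = 0 ∨ (k % (d * hc) = hc) := by
      rcases hmod with h | h
      · left
        have : k % (d * hc) = 0 % (d * hc) := h
        simpa using this
      · have h' : k % (d * hc) = hc % (d * hc) := h
        rcases Nat.lt_or_ge d 2 with h2 | h2
        · left
          have : d = 1 := by omega
          rw [h', this, one_mul, Nat.mod_self]
        · right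
          rw [h', Nat.mod_eq_of_lt]
          calc hc < 2 * hc := by omega
            _ ≤ d * hc := Nat.mul_le_mul_right _ h2
    rcases hz with h | h
    · refine ⟨d * (k / (d * hc)), k / (d * hc), 0, ?_, by ring, by norm_num⟩
      rw [h, add_zero] at hdiv
      calc k = d * hc * (k / (d * hc)) := hdiv.symm
        _ = _ := by ring
    · refine ⟨d * (k / (d * hc)) + 1, k / (d * hc), 1, ?_, rfl, le_rfl⟩
      rw [h] at hdiv
      calc k = d * hc * (k / (d * hc)) + hc := hdiv.symm
        _ = _ := by ring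
  have hpow : ∀ m, j ≠ 2 ^ m := by
    intro m hm
    apply hcon (s + m)
    rw [hkj, hs, hm, pow_add]
  have hj3 : 3 ≤ j := by
    rcases Nat.lt_or_ge j 3 with h | h
    · exfalso
      interval_cases j
      · omega
      · exact hpow 0 rfl
      · exact hpow 1 rfl
    · exact h
  have hjV : 2 * j ≤ V.card := by
    rw [hcard, hkj] at hk
    have : hc * (2 * j) ≤ hc * V.card := by
      calc hc * (2 * j) = 2 * (hc * j) := by ring
        _ ≤ _ := hk
    exact Nat.le_of_mul_le_mul_left this hHpos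
  have hmuV : ∀ ζ : F, ζ ^ d = 1 → ∀ x ∈ V, ζ * x ∈ V := by
    intro ζ hζ x hx
    rw [hVmem] at hx ⊢
    exact VL.smul_mem (⟨ζ, hH ζ hζ⟩ : L) hx
  obtain ⟨C, hCV, hCc, hCmu, hCst⟩ := core V ((hVmem 0).2 VL.zero_mem)
    (fun x hx y hy => (hVmem _).2 (VL.add_mem ((hVmem x).1 hx) ((hVmem y).1 hy)))
    hd hmuV n hn j i e hje he hj3 hjV hpow
  have hCVL : ∀ c ∈ C, c ∈ VL := fun c hc => (hVmem c).1 (hCV hc)
  -- the set `B = C + H`
  set B : Set F := {x | ∃ c ∈ C, ∃ h ∈ H, x = c + h} with hB
  have hBcard : B.ncard = k := by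
    have h1 : B = ((C ×ˢ univ.filter (fun x => x ∈ H)).image (fun p : F × F => p.1 + p.2) :
        Finset F) := by
      ext x
      simp only [hB, Set.mem_ofPred_eq, coe_image, Set.mem_image, mem_coe, mem_product, mem_filter,
        mem_univ, true_and, Prod.exists]
      constructor
      · rintro ⟨c, hc, h, hh, rfl⟩
        exact ⟨c, h, ⟨hc, hh⟩, rfl⟩
      · rintro ⟨c, h, ⟨hc, hh⟩, rfl⟩
        exact ⟨c, hc, h, hh, rfl⟩
    rw [h1, Set.ncard_coe_finset, card_image_of_injOn, card_product, hCc, hkj, mul_comm]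
    · congr 1
      rw [hhc, Nat.card_eq_fintype_card, ← Fintype.card_subtype]
    · rintro ⟨c, h⟩ hp ⟨c', h'⟩ hp' he
      simp only [coe_product, Set.mem_prod, mem_coe, mem_filter, mem_univ, true_and] at hp hp' he
      have := huniq c c' h h' (hCVL _ hp.1) (hCVL _ hp'.1) hp.2 hp'.2 he
      subst this
      rw [add_left_cancel he]
  have hBst : stabilizer B = S d H := by
    ext σ
    constructor
    · rintro ⟨⟨a, b, ha, hσ⟩, himg⟩
      have hσB : ∀ x ∈ B, a * x + b ∈ B := by
        intro x hx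
        rw [← hσ, ← himg]
        exact ⟨x, hx, rfl⟩
      have hBσ : ∀ y ∈ B, ∃ x ∈ B, a * x + b = y := by
        intro y hy
        rw [← himg] at hy
        obtain ⟨x, hx, rfl⟩ := hy
        exact ⟨x, hx, (hσ x).symm⟩
      have htr : ∀ b' : F, (∀ y ∈ B, y + b' ∈ B) → b' ∈ H := by
        intro b' hb'
        obtain ⟨h, hh, v, hv, rfl⟩ := hex b'
        have hv0 : v = 0 := by
          refine (hCst 1 v one_ne_zero ?_).2
          intro c hc
          obtain ⟨c', hc', h', hh', he'⟩ := hb' c ⟨c, hc, 0, H.zero_mem, by rw [add_zero]⟩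
          have := huniq (c + v) c' h h' (VL.add_mem (hCVL c hc) hv) (hCVL c' hc') hh hh'
            (by rw [← he']; ring)
          rw [one_mul, this]
          exact hc'
        rw [hv0, add_zero]; exact hh
      have haL : ∀ h ∈ H, a * h ∈ H := by
        intro h hh
        apply htr
        intro y hy
        obtain ⟨x, ⟨c, hc, h', hh', rfl⟩, rfl⟩ := hBσ y hy
        have := hσB (c + h' + h) ⟨c, hc, h' + h, H.add_mem hh' hh, by ring⟩
        have e : a * (c + h') + b + a * h = a * (c + h' + h) + b := by ring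
        rw [e]; exact this
      obtain ⟨h0, hh0, v, hv, hb⟩ := hex b
      have hfin := hCst a v ha (by
        intro c hc
        obtain ⟨c', hc', h', hh', he'⟩ := hσB c ⟨c, hc, 0, H.zero_mem, by rw [add_zero]⟩
        have hac : a * c ∈ VL := VL.smul_mem (⟨a, haL⟩ : L) (hCVL c hc)
        have := huniq (a * c + v) c' h0 h' (VL.add_mem hac hv) (hCVL c' hc') hh0 hh'
          (by rw [← he', ← hb]; ring)
        rw [this]; exact hc')
      refine ⟨a, b, hfin.1, ?_, hσ⟩
      rw [← hb, hfin.2, add_zero]; exact hh0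
    · rintro ⟨ζ, h0, hζ, hh0, hσ⟩
      have hζ0 : ζ ≠ 0 := by
        rintro rfl
        rw [zero_pow hd0.ne'] at hζ
        exact zero_ne_one hζ
      refine ⟨⟨ζ, h0, hζ0, hσ⟩, ?_⟩
      apply Set.eq_of_subset_of_ncard_le
      · rintro y ⟨x, ⟨c, hc, h, hh, rfl⟩, rfl⟩
        rw [hσ]
        exact ⟨ζ * c, hCmu ζ hζ c hc, ζ * h + h0, H.add_mem (hH ζ hζ h hh) hh0, by ring⟩
      · rw [Set.ncard_image_of_injective _ σ.injective]
      · exact Set.toFinite _
  have : {B : Set F | B.ncard = k ∧ stabilizer B = S d H} = ∅ := by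
    have h := hN
    unfold N at h
    rwa [Set.ncard_eq_zero (Set.toFinite _)] at h
  have hmem : B ∈ {B : Set F | B.ncard = k ∧ stabilizer B = S d H} := ⟨hBcard, hBst⟩
  rw [this] at hmem
  exact hmem

end Main

end Pool.Agent.Results.MP_3242d6_co.PowerOfTwo
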